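import Mathlib
import Pool.Agent.Work.MP_3218de_al.HL.Loc

set_option autoImplicit false
set_option linter.style.haveILetI false

/-!
# MP_3218de_al, block OL: the transfinite relative upper central series
-/

namespace Pool.Agent.OL3218

open Ordinal Pool.Agent.HL3218
open scoped commutatorElement

variable {G : Type} [Group G]

/-- the transfinite upper central series of `G` relative to the subgroup `N`: `ZO N 0 = {1}`, and
`x ∈ ZO N α` if and only if `x = 1` or, for some `β < α`, all `x * y * x⁻¹ * y⁻¹` with `y ∈ N` are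
in `ZO N β` -/
def ZO (N : Subgroup G) (α : Ordinal.{0}) : Set G :=
  {x | x = 1 ∨ ∃ β, ∃ _ : β < α, ∀ y ∈ N, x * y * x⁻¹ * y⁻¹ ∈ ZO N β}
termination_by α
decreasing_by assumption

theorem mem_ZO {N : Subgroup G} {α : Ordinal.{0}} {x : G} :
    x ∈ ZO N α ↔ x = 1 ∨ ∃ β < α, ∀ y ∈ N, x * y * x⁻¹ * y⁻¹ ∈ ZO N β := by
  rw [ZO]
  simp only [Set.mem_ofPred_eq, exists_prop]

theorem one_mem_ZO (N : Subgroup G) (α : Ordinal.{0}) : (1 : G) ∈ ZO N α :=
  mem_ZO.2 (Or.inl rfl)

theorem ZO_mono (N : Subgroup G) {α β : Ordinal.{0}} (h : α ≤ β) : ZO N α ⊆ ZO N β := by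
  intro x hx
  rcases mem_ZO.1 hx with h1 | ⟨γ, hγ, h1⟩
  · exact mem_ZO.2 (Or.inl h1)
  · exact mem_ZO.2 (Or.inr ⟨γ, hγ.trans_le h, h1⟩)

theorem ZO_anti {N N' : Subgroup G} (h : N ≤ N') (α : Ordinal.{0}) : ZO N' α ⊆ ZO N α := by
  induction α using WellFoundedLT.induction with
  | ind α ih =>
    intro x hx
    rcases mem_ZO.1 hx with h1 | ⟨γ, hγ, h1⟩
    · exact mem_ZO.2 (Or.inl h1)
    · exact mem_ZO.2 (Or.inr ⟨γ, hγ, fun y hy => ih γ hγ (h1 y (h hy))⟩)

theorem ZO_zero (N : Subgroup G) : ZO N 0 = {1} := by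
  ext x
  rw [mem_ZO]
  constructor
  · rintro (h | ⟨β, hβ, -⟩)
    · exact h
    · exact absurd hβ (not_lt.2 zero_le)
  · intro h
    exact Or.inl h

/-- the relative series of a normal subgroup consists of normal subgroups -/
theorem ZO_normal (N : Subgroup G) [N.Normal] (α : Ordinal.{0}) :
    ∃ H : Subgroup G, H.Normal ∧ (H : Set G) = ZO N α := by
  induction α using WellFoundedLT.induction with
  | ind α ih =>
    rcases eq_or_ne α 0 with h0 | h0
    · subst h0
      exact ⟨⊥, inferInstance, by rw [ZO_zero]; rfl⟩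
    choose H hH hHZ using ih
    let K : Set.Iio α → Subgroup G := fun β =>
      haveI := hH β.1 β.2
      Cn N (H β.1 β.2)
    have hKn : ∀ β, (K β).Normal := fun β => by
      haveI := hH β.1 β.2
      exact Cn_normal N _
    have hKm : ∀ (β : Set.Iio α) (x : G), x ∈ K β ↔ ∀ y ∈ N, x * y * x⁻¹ * y⁻¹ ∈ ZO N β.1 := by
      intro β x
      haveI := hH β.1 β.2
      show x ∈ Cn N (H β.1 β.2) ↔ _
      rw [mem_Cn]
      refine forall₂_congr fun y _ => ?_
      rw [← hHZ β.1 β.2, SetLike.mem_coe, commutatorElement_def]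
    have hmono : Monotone K := by
      intro β γ hβγ x hx
      rw [hKm] at hx ⊢
      exact fun y hy => ZO_mono N hβγ (hx y hy)
    haveI : Nonempty (Set.Iio α) := ⟨⟨0, pos_iff_ne_zero.2 h0⟩⟩
    refine ⟨⨆ β, K β, ?_, ?_⟩
    · haveI := hKn
      infer_instance
    · ext x
      rw [SetLike.mem_coe, Subgroup.mem_iSup_of_directed hmono.directed_le, mem_ZO]
      constructor
      · rintro ⟨β, hβ⟩
        exact Or.inr ⟨β.1, β.2, (hKm β x).1 hβ⟩
      · rintro (h | ⟨β, hβ, h⟩)
        · exact ⟨Classical.arbitrary _, h ▸ one_mem _⟩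
        · exact ⟨⟨β, hβ⟩, (hKm ⟨β, hβ⟩ x).2 h⟩

/-- the series under a homomorphism which kills `ZO N β` -/
theorem ZO_map {Q : Type} [Group Q] (q : G →* Q) (N : Subgroup G) (β : Ordinal.{0})
    (hq : ∀ x ∈ ZO N β, q x = 1) (δ : Ordinal.{0}) :
    ∀ x ∈ ZO N (β + δ), q x ∈ ZO (N.map q) δ := by
  induction δ using WellFoundedLT.induction with
  | ind δ ih =>
    intro x hx
    rcases mem_ZO.1 hx with h1 | ⟨γ, hγ, h1⟩
    · rw [h1, map_one]
      exact one_mem_ZO _ _
    · rcases lt_or_ge γ β with h2 | h2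
      · rw [hq x (mem_ZO.2 (Or.inr ⟨γ, h2, h1⟩))]
        exact one_mem_ZO _ _
      · obtain ⟨ε, rfl⟩ := exists_add_of_le h2
        have hε : ε < δ := lt_of_add_lt_add_left hγ
        refine mem_ZO.2 (Or.inr ⟨ε, hε, ?_⟩)
        rintro _ ⟨y, hy, rfl⟩
        have h3 := ih ε hε _ (h1 y hy)
        simpa only [map_mul, map_inv] using h3

/-- the series of the ambient group and of the subgroup -/
theorem ZO_coe (H : Subgroup G) (α : Ordinal.{0}) : ∀ x : H,
    x ∈ ZO (⊤ : Subgroup H) α ↔ (x : G) ∈ ZO H α := by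
  induction α using WellFoundedLT.induction with
  | ind α ih =>
    intro x
    rw [mem_ZO, mem_ZO]
    refine or_congr ?_ (exists_congr fun β => and_congr_right fun hβ => ?_)
    · exact ⟨fun h => by rw [h]; rfl, fun h => Subtype.ext h⟩
    · constructor
      · intro h y hy
        exact (ih β hβ _).1 (h ⟨y, hy⟩ (Subgroup.mem_top _))
      · intro h y _
        exact (ih β hβ _).2 (h y y.2)

/-- a group in which every proper normal subgroup misses an element central modulo it is the union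
of its transfinite upper central series -/
theorem exists_mem_ZO (H : Subgroup G)
    (hH : ∀ N : Subgroup H, N.Normal → N ≠ ⊤ →
        ∃ x : H, x ∉ N ∧ ∀ y : H, x * y * x⁻¹ * y⁻¹ ∈ N) (x : G) (hx : x ∈ H) :
    ∃ α : Ordinal.{0}, x ∈ ZO H α := by
  choose K hK hKZ using fun α : Ordinal.{0} => ZO_normal (⊤ : Subgroup H) α
  have hmono : Monotone K := by
    intro α β h y hy
    rw [← SetLike.mem_coe, hKZ] at hy ⊢
    exact ZO_mono _ h hy
  let N : Subgroup H :=
    { carrier := {x | ∃ α, x ∈ K α}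
      one_mem' := ⟨0, one_mem _⟩
      mul_mem' := by
        rintro a b ⟨α, ha⟩ ⟨β, hb⟩
        exact ⟨max α β, mul_mem (hmono (le_max_left α β) ha) (hmono (le_max_right α β) hb)⟩
      inv_mem' := by
        rintro a ⟨α, ha⟩
        exact ⟨α, inv_mem ha⟩ }
  have hNm : ∀ y : H, y ∈ N ↔ ∃ α, y ∈ K α := fun y => Iff.rfl
  have hNn : N.Normal := ⟨fun y hy g => by
    obtain ⟨α, hα⟩ := (hNm y).1 hy
    exact (hNm _).2 ⟨α, (hK α).conj_mem y hα g⟩⟩
  have hNt : N = ⊤ := by
    by_contra hne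
    obtain ⟨z, hz, hzy⟩ := hH N hNn hne
    choose α hα using fun y => (hNm _).1 (hzy y)
    apply hz
    refine (hNm z).2 ⟨(⨆ y, α y) + 1, ?_⟩
    rw [← SetLike.mem_coe, hKZ, mem_ZO]
    refine Or.inr ⟨⨆ y, α y, lt_add_one _, fun y _ => ?_⟩
    rw [← hKZ, SetLike.mem_coe]
    exact hmono (Ordinal.le_iSup α y) (hα y)
  have h1 : (⟨x, hx⟩ : H) ∈ N := hNt ▸ Subgroup.mem_top _
  obtain ⟨α, hα⟩ := (hNm _).1 h1
  rw [← SetLike.mem_coe, hKZ] at hα
  exact ⟨α, (ZO_coe H α _).1 hα⟩

/-- Chernikov: iterated commutators from an element of the series reach 1 -/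
theorem seq_stop (H : Subgroup G) (α : Ordinal.{0}) : ∀ c y : ℕ → G, c 0 ∈ ZO H α →
    (∀ n, y n ∈ H) → (∀ n, c (n + 1) = c n * y n * (c n)⁻¹ * (y n)⁻¹) → ∃ n, c n = 1 := by
  induction α using WellFoundedLT.induction with
  | ind α ih =>
    intro c y h0 hy hc
    rcases mem_ZO.1 h0 with h1 | ⟨γ, hγ, h1⟩
    · exact ⟨0, h1⟩
    · obtain ⟨n, hn⟩ := ih γ hγ (fun n => c (n + 1)) (fun n => y (n + 1))
        (by
          show c (0 + 1) ∈ ZO H γ
          rw [hc 0]
          exact h1 _ (hy 0)) (fun n => hy (n + 1)) (fun n => hc (n + 1))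
      exact ⟨n + 1, hn⟩

/-- the series relative to `N` is `ZS` at the multiples of `ω` -/
theorem ZO_succ (N : Subgroup G) (α : Ordinal.{0}) : ZO N (α + 1) ⊆ stepS N (ZO N α) ∪ {1} := by
  intro x hx
  rcases mem_ZO.1 hx with h1 | ⟨γ, hγ, h1⟩
  · exact Or.inr h1
  · exact Or.inl fun y hy => ZO_mono N (Order.lt_add_one_iff.1 hγ) (h1 y hy)

theorem ZO_omega (N : Subgroup G) : ∀ b : ℕ, ZO N (ω * b) ⊆ ZS N b
  | 0 => by
    rw [Nat.cast_zero, mul_zero, ZO_zero]
    exact subset_rfl
  | b + 1 => by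
    have ih := ZO_omega N b
    have h1 : ∀ m : ℕ, ZO N (ω * b + m) ⊆ (stepS N)^[m] (ZS N b) := by
      intro m
      induction m with
      | zero =>
        rw [Nat.cast_zero, add_zero]
        exact ih
      | succ m ihm =>
        rw [Function.iterate_succ_apply', Nat.cast_succ, ← add_assoc]
        intro x hx
        have hone : ∀ m : ℕ, (1 : G) ∈ (stepS N)^[m] (ZS N b) := by
          intro m
          induction m with
          | zero => exact ih (one_mem_ZO _ _)
          | succ m ih2 =>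
            rw [Function.iterate_succ_apply']
            intro y _
            simpa using ih2
        rcases ZO_succ N _ hx with h2 | h2
        · exact fun y hy => ihm (h2 y hy)
        · have h3 : x = 1 := h2
          rw [h3]
          intro y _
          simpa using hone m
    intro x hx
    rcases mem_ZO.1 hx with h2 | ⟨γ, hγ, h2⟩
    · rw [h2]
      exact Set.mem_iUnion.2 ⟨0, ih (one_mem_ZO _ _)⟩
    · have h3 : ∃ m : ℕ, γ ≤ ω * b + m := by
        rw [Nat.cast_succ, mul_add, mul_one] at hγ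
        rcases le_total γ (ω * b) with h4 | h4
        · exact ⟨0, by rw [Nat.cast_zero, add_zero]; exact h4⟩
        · obtain ⟨ε, rfl⟩ := exists_add_of_le h4
          obtain ⟨m, rfl⟩ := Ordinal.lt_omega0.1 (lt_of_add_lt_add_left hγ)
          exact ⟨m, le_rfl⟩
      obtain ⟨m, hm⟩ := h3
      refine Set.mem_iUnion.2 ⟨m + 1, ?_⟩
      rw [Function.iterate_succ_apply']
      exact fun y hy => h1 m (ZO_mono N hm (h2 y hy))

end Pool.Agent.OL3218
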