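import Mathlib
import Pool.Agent.Work.MP_3218de_al.OL.Basic
import Pool.Agent.Work.MP_3218de_al.HL.Low
import Pool.Agent.Work.MP_3218de_al.UN.I_MC

set_option autoImplicit false
set_option linter.style.haveILetI false

/-!
# MP_3218de_al, block OL: the bound for all proper subgroups and the first lengths
-/

namespace Pool.Agent.OL3218

open Ordinal Pool.Agent.HL3218
open scoped commutatorElement

section bound

variable {G : Type} [Group G]

/-- for every countable ordinal some subgroup which contains `F` and avoids `a` has larger height of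
`w` -/
def Bad (a : G) (F : Finset G) (w : G) : Prop :=
  ∀ α < ω₁, ∃ H : Subgroup G, a ∉ H ∧ (∀ z ∈ F, z ∈ H) ∧ w ∉ ZO H α

theorem bad_step [DecidableEq G] [Countable G] {a : G} {F : Finset G} {w : G} (h : Bad a F w) :
    ∃ y, Bad a (insert y F) (w * y * w⁻¹ * y⁻¹) := by
  by_contra hcon
  unfold Bad at hcon
  push Not at hcon
  choose α hα hαH using hcon
  have hsup : ⨆ y, α y < ω₁ := Ordinal.iSup_lt_omega_one hα
  have hsup1 : (⨆ y, α y) + 1 < ω₁ := (Cardinal.isSuccLimit_omega 1).add_one_lt hsup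
  obtain ⟨H, haH, hFH, hwH⟩ := h _ hsup1
  have h1 : ∃ y ∈ H, w * y * w⁻¹ * y⁻¹ ∉ ZO H (⨆ y, α y) := by
    by_contra h2
    push Not at h2
    exact hwH (mem_ZO.2 (Or.inr ⟨_, lt_add_one _, h2⟩))
  obtain ⟨y, hyH, hy⟩ := h1
  refine hy (ZO_mono H (Ordinal.le_iSup α y) (hαH y H haH ?_))
  intro z hz
  rcases Finset.mem_insert.1 hz with rfl | hz
  · exact hyH
  · exact hFH z hz

theorem not_bad [Countable G]
    (hcomp : ∀ H : Subgroup G, H ≠ ⊤ → ∀ x ∈ H, ∃ α : Ordinal.{0}, x ∈ ZO H α) (a w : G) :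
    ¬ Bad a {w} w := by
  classical
  intro h0
  let T : Type := {s : Finset G × G // Bad a s.1 s.2}
  choose Y hY using fun s : T => bad_step s.2
  let nx : T → T := fun s => ⟨(insert (Y s) s.1.1, s.1.2 * Y s * (s.1.2)⁻¹ * (Y s)⁻¹), hY s⟩
  let s : ℕ → T := fun n => nx^[n] ⟨({w}, w), h0⟩
  have hs : ∀ n, s (n + 1) = nx (s n) := fun n => Function.iterate_succ_apply' _ _ _
  let K : ℕ → Subgroup G := fun n => Subgroup.closure ((s n).1.1 : Set G)
  have hmono : Monotone K := by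
    refine monotone_nat_of_le_succ fun n => Subgroup.closure_mono ?_
    rw [hs n]
    intro z hz
    exact Finset.mem_coe.2 (Finset.mem_insert_of_mem (Finset.mem_coe.1 hz))
  have haK : a ∉ ⨆ n, K n := by
    rw [Subgroup.mem_iSup_of_directed hmono.directed_le]
    rintro ⟨n, hn⟩
    obtain ⟨H, haH, hFH, -⟩ := (s n).2 0 (Ordinal.omega_pos 1)
    exact haH ((Subgroup.closure_le H).2 (fun z hz => hFH z (Finset.mem_coe.1 hz)) hn)
  have hKt : (⨆ n, K n) ≠ ⊤ := fun h => haK (h ▸ Subgroup.mem_top a)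
  have hwK : w ∈ ⨆ n, K n :=
    Subgroup.mem_iSup_of_mem 0 (Subgroup.subset_closure
      (Finset.mem_coe.2 (Finset.mem_singleton_self w)))
  obtain ⟨α, hα⟩ := hcomp _ hKt w hwK
  obtain ⟨n, hn⟩ := seq_stop _ α (fun n => (s n).1.2) (fun n => Y (s n)) hα
    (fun n => Subgroup.mem_iSup_of_mem (n + 1) (Subgroup.subset_closure (by
      show Y (s n) ∈ ((s (n + 1)).1.1 : Set G)
      rw [hs n]
      exact Finset.mem_coe.2 (Finset.mem_insert_self _ _))))
    (fun n => by
      show (s (n + 1)).1.2 = _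
      rw [hs n])
  obtain ⟨H, -, -, hwH⟩ := (s n).2 0 (Ordinal.omega_pos 1)
  apply hwH
  have h1 : (s n).1.2 = 1 := hn
  rw [h1]
  exact one_mem_ZO _ _

theorem uniform [Countable G]
    (hcomp : ∀ H : Subgroup G, H ≠ ⊤ → ∀ x ∈ H, ∃ α : Ordinal.{0}, x ∈ ZO H α) :
    ∃ α : Ordinal.{0}, α < ω₁ ∧ ∀ H : Subgroup G, H ≠ ⊤ → ∀ x ∈ H, x ∈ ZO H α := by
  have h1 : ∀ t : G × G, ∃ α : Ordinal.{0}, α < ω₁ ∧
      ∀ H : Subgroup G, t.1 ∉ H → t.2 ∈ H → t.2 ∈ ZO H α := by
    intro t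
    have h2 := not_bad hcomp t.1 t.2
    unfold Bad at h2
    push Not at h2
    obtain ⟨α, hα, h3⟩ := h2
    refine ⟨α, hα, fun H h4 h5 => h3 H h4 ?_⟩
    intro z hz
    rw [Finset.mem_singleton.1 hz]
    exact h5
  choose α hα hαH using h1
  refine ⟨⨆ t, α t, Ordinal.iSup_lt_omega_one hα, fun H hH x hx => ?_⟩
  obtain ⟨a, ha⟩ : ∃ a, a ∉ H := by
    by_contra h2
    push Not at h2
    exact hH (eq_top_iff.2 fun y _ => h2 y)
  exact ZO_mono H (Ordinal.le_iSup α (a, x)) (hαH (a, x) H ha hx)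

end bound

section exm

variable {p : ℕ} {G : Type} [Group G]

theorem comp_of_exm (h : Exm p G) : ∀ H : Subgroup G, H ≠ ⊤ → ∀ x ∈ H,
    ∃ α : Ordinal.{0}, x ∈ ZO H α :=
  fun H hH x hx => exists_mem_ZO H (h.proper H hH).2 x hx

/-- part (a) -/
theorem uniform_exm (h : Exm p G) :
    ∃ α : Ordinal.{0}, α < ω₁ ∧ ∀ H : Subgroup G, H ≠ ⊤ → ∀ x ∈ H, x ∈ ZO H α := by
  haveI := h.countable
  exact uniform (comp_of_exm h)

/-- normal closures of finite sets are proper -/
theorem nc_ne_top (h : Exm p G) (S : Finset G) : Subgroup.normalClosure (S : Set G) ≠ ⊤ := by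
  intro htop
  haveI := h.nontriv
  let C : Set (Subgroup G) := {N | N.Normal ∧ ¬ (S : Set G) ⊆ N}
  have hbot : (⊥ : Subgroup G) ∈ C := by
    refine ⟨inferInstance, fun hS => ?_⟩
    have h1 : Subgroup.normalClosure (S : Set G) ≤ ⊥ := Subgroup.normalClosure_le_normal hS
    rw [htop] at h1
    exact bot_ne_top (le_antisymm bot_le h1)
  obtain ⟨M, -, hM⟩ := zorn_le_nonempty₀ C (by
    intro c hc hchain y hy
    refine ⟨sSup c, ⟨?_, ?_⟩, fun z hz => le_sSup hz⟩
    · refine ⟨fun x hx g => ?_⟩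
      rw [Subgroup.mem_sSup_of_directedOn ⟨y, hy⟩ hchain.directedOn] at hx ⊢
      obtain ⟨N, hN, hx⟩ := hx
      exact ⟨N, hN, (hc hN).1.conj_mem x hx g⟩
    · intro hS
      have h1 : (S : Set G) ⊆ ⋃ i ∈ c, (i : Set G) := by
        intro x hx
        have h2 := hS hx
        rw [SetLike.mem_coe, Subgroup.mem_sSup_of_directedOn ⟨y, hy⟩ hchain.directedOn] at h2
        obtain ⟨N, hN, hx⟩ := h2
        exact Set.mem_biUnion hN hx
      obtain ⟨N, hN, hSN⟩ := DirectedOn.exists_mem_subset_of_finset_subset_biUnion ⟨y, hy⟩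
        (f := fun i : Subgroup G => (i : Set G)) hchain.directedOn h1
      exact (hc hN).2 hSN) ⊥ hbot
  haveI := hM.prop.1
  have hMt : M ≠ ⊤ := fun h1 => hM.prop.2 (h1 ▸ Set.subset_univ _)
  haveI : Nontrivial (G ⧸ M) := QuotientGroup.nontrivial_iff.2 hMt
  have hQ : Exm p (G ⧸ M) := h.map (QuotientGroup.mk' M) (QuotientGroup.mk'_surjective M)
  obtain ⟨N, hNn, hNb, hNt⟩ := Pool.Agent.UN.pr_MC p (G ⧸ M) hQ
  have h1 : (N.comap (QuotientGroup.mk' M)).Normal := hNn.comap _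
  have h2 : M ≤ N.comap (QuotientGroup.mk' M) := by
    intro x hx
    rw [Subgroup.mem_comap, QuotientGroup.mk'_apply, (QuotientGroup.eq_one_iff x).2 hx]
    exact one_mem N
  have h3 : (S : Set G) ⊆ N.comap (QuotientGroup.mk' M) := by
    by_contra h4
    have h5 := hM.le_of_ge ⟨h1, h4⟩ h2
    apply hNb
    rw [Subgroup.eq_bot_iff_forall]
    intro x hx
    obtain ⟨x, rfl⟩ := QuotientGroup.mk'_surjective M x
    exact (QuotientGroup.eq_one_iff x).2 (h5 hx)
  apply hNt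
  have h4 : N.comap (QuotientGroup.mk' M) = ⊤ := by
    rw [eq_top_iff, ← htop]
    exact Subgroup.normalClosure_le_normal h3
  rw [← Subgroup.map_comap_eq_self_of_surjective (QuotientGroup.mk'_surjective M) N, h4,
    Subgroup.map_top_of_surjective _ (QuotientGroup.mk'_surjective M)]

end exm

end Pool.Agent.OL3218
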