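import Mathlib
import Pool.Agent.Work.MP_3218de_al.OL.Main

set_option autoImplicit false
set_option linter.style.haveILetI false

/-!
# MP_3218de_al, block OL: the first lengths are powers of ω
-/

namespace Pool.Agent.OL3218

open Ordinal Pool.Agent.HL3218
open scoped commutatorElement

section images

variable {G : Type} [Group G]

/-- `N S` is the normal closure of the finite set `S` -/
abbrev nc (S : Finset G) : Subgroup G := Subgroup.normalClosure (S : Set G)

theorem nc_mono {S T : Finset G} (h : S ⊆ T) : nc S ≤ nc T :=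
  Subgroup.normalClosure_mono (by exact_mod_cast h)

theorem self_mem_nc [DecidableEq G] (x : G) (S : Finset G) : x ∈ nc (insert x S) :=
  Subgroup.subset_normalClosure (Finset.mem_coe.2 (Finset.mem_insert_self x S))

theorem nc_map {Q : Type} [Group Q] [DecidableEq Q] (f : G →* Q) (hf : Function.Surjective f)
    (S : Finset G) : (nc S).map f = nc (S.image f) := by
  show (Subgroup.normalClosure (S : Set G)).map f =
    Subgroup.normalClosure ((S.image f : Finset Q) : Set Q)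
  rw [Subgroup.map_normalClosure _ f hf, Finset.coe_image]

theorem exists_lift {Q : Type} [Group Q] [DecidableEq Q] (f : G →* Q)
    (hf : Function.Surjective f) (T : Finset Q) : ∃ S : Finset G, S.image f = T := by
  classical
  refine ⟨T.image (Function.surjInv hf), ?_⟩
  rw [Finset.image_image]
  have h1 : f ∘ Function.surjInv hf = id := funext fun x => Function.surjInv_eq hf x
  rw [h1, Finset.image_id]

/-- the normal closures of the finite subsets have hypercentral length at most `δ` -/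
def PB (Q : Type) [Group Q] (δ : Ordinal.{0}) : Prop :=
  ∀ S : Finset Q, ∀ x ∈ nc S, x ∈ ZO (nc S) δ

/-- all heights of `x` relative to the normal closures of finite subsets are at most `δ` -/
def HB {Q : Type} [Group Q] (x : Q) (δ : Ordinal.{0}) : Prop :=
  ∀ S : Finset Q, x ∈ ZO (nc S) δ

/-- quotients by a term of the series, for heights -/
theorem HB_quot {Q R : Type} [Group Q] [Group R] (q : Q →* R) (hq : Function.Surjective q)
    (S : Finset Q) (β δ : Ordinal.{0}) (hk : ∀ x ∈ ZO (nc S) β, q x = 1) {x : Q}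
    (hx : HB x (β + δ)) : HB (q x) δ := by
  classical
  intro T'
  obtain ⟨T, rfl⟩ := exists_lift q hq T'
  rw [← nc_map q hq T]
  have h1 : ∀ y ∈ ZO (nc (S ∪ T)) β, q y = 1 := fun y hy =>
    hk y (ZO_anti (nc_mono Finset.subset_union_left) β hy)
  exact ZO_anti (Subgroup.map_mono (nc_mono Finset.subset_union_right)) δ
    (ZO_map q (nc (S ∪ T)) β h1 δ x (hx (S ∪ T)))

theorem HB_map {Q R : Type} [Group Q] [Group R] (q : Q →* R) (hq : Function.Surjective q)
    {δ : Ordinal.{0}} {x : Q} (hx : HB x δ) : HB (q x) δ := by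
  refine HB_quot q hq ∅ 0 δ ?_ (by rwa [zero_add])
  intro x hx
  rw [ZO_zero] at hx
  have h1 : x = 1 := hx
  rw [h1, map_one]

/-- quotients by a term of the series, for lengths -/
theorem PB_quot {Q R : Type} [Group Q] [Group R] (q : Q →* R) (hq : Function.Surjective q)
    (S : Finset Q) (β δ : Ordinal.{0}) (hk : ∀ x ∈ ZO (nc S) β, q x = 1)
    (hQ : PB Q (β + δ)) : PB R δ := by
  classical
  intro T' x' hx'
  obtain ⟨T, rfl⟩ := exists_lift q hq T'
  rw [← nc_map q hq T] at hx' ⊢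
  obtain ⟨x, hx, rfl⟩ := hx'
  have h1 : ∀ y ∈ ZO (nc (S ∪ T)) β, q y = 1 := fun y hy =>
    hk y (ZO_anti (nc_mono Finset.subset_union_left) β hy)
  exact ZO_anti (Subgroup.map_mono (nc_mono Finset.subset_union_right)) δ
    (ZO_map q (nc (S ∪ T)) β h1 δ x (hQ (S ∪ T) x (nc_mono Finset.subset_union_right hx)))

theorem PB_map {Q R : Type} [Group Q] [Group R] (q : Q →* R) (hq : Function.Surjective q)
    {δ : Ordinal.{0}} (hQ : PB Q δ) : PB R δ := by
  refine PB_quot q hq ∅ 0 δ ?_ (by rwa [zero_add])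
  intro x hx
  rw [ZO_zero] at hx
  have h1 : x = 1 := hx
  rw [h1, map_one]

/-- bounded lengths bound all heights -/
theorem HB_of_PB {δ : Ordinal.{0}} (h : PB G δ) (x : G) : HB x δ := by
  classical
  intro S
  exact ZO_anti (nc_mono (Finset.subset_insert x S)) δ (h (insert x S) x (self_mem_nc x S))

/-- the elements with bounded heights form a normal subgroup -/
theorem HB_nc {δ : Ordinal.{0}} {x : G} (h : HB x δ) : ∀ y ∈ Subgroup.normalClosure {x},
    HB y δ := by
  intro y hy S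
  obtain ⟨H, hH, hHZ⟩ := ZO_normal (nc S) δ
  have h1 : Subgroup.normalClosure {x} ≤ H := by
    refine Subgroup.normalClosure_le_normal ?_
    intro z hz
    rw [Set.mem_singleton_iff.1 hz, hHZ]
    exact h S
  rw [← hHZ]
  exact h1 hy

end images

section exm

variable {p : ℕ} {G : Type} [Group G]

/-- Gruen -/
theorem central_of_comm (h : Exm p G) (b : G)
    (hb : ∀ g : G, b * g * b⁻¹ * g⁻¹ ∈ Subgroup.center G) : b ∈ Subgroup.center G := by
  haveI := h.isPerfect
  have hc : Subgroup.center (G ⧸ Subgroup.center G) = ⊥ :=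
    Group.IsPerfect.center_quotient_center_eq_bot G
  have h1 : (b : G ⧸ Subgroup.center G) ∈ Subgroup.center (G ⧸ Subgroup.center G) := by
    rw [Subgroup.mem_center_iff]
    intro q
    obtain ⟨g, rfl⟩ := QuotientGroup.mk_surjective q
    have h2 : ((b * g * b⁻¹ * g⁻¹ : G) : G ⧸ Subgroup.center G) = 1 :=
      (QuotientGroup.eq_one_iff _).2 (hb g)
    rw [QuotientGroup.mk_mul, QuotientGroup.mk_mul, QuotientGroup.mk_mul, QuotientGroup.mk_inv,
      QuotientGroup.mk_inv, mul_inv_eq_one, mul_inv_eq_iff_eq_mul] at h2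
    exact h2.symm
  rw [hc, Subgroup.mem_bot] at h1
  exact (QuotientGroup.eq_one_iff b).mp h1

/-- heights below `ω * b` are central -/
theorem central_of_HB_omega (h : Exm p G) (b : ℕ) {x : G} (hx : HB x (ω * b)) :
    x ∈ Subgroup.center G :=
  central_of_ZS h b x fun S => ZO_omega _ b (hx S)

/-- some image has bounded lengths -/
def ImP (G : Type) [Group G] (δ : Ordinal.{0}) : Prop :=
  ∃ (Q : Type) (_ : Group Q) (q : G →* Q), Nontrivial Q ∧ Function.Surjective q ∧ PB Q δ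

/-- some image has a noncentral element with bounded heights -/
def ImC (G : Type) [Group G] (δ : Ordinal.{0}) : Prop :=
  ∃ (Q : Type) (_ : Group Q) (q : G →* Q), Function.Surjective q ∧
    ∃ x : Q, x ∉ Subgroup.center Q ∧ HB x δ

theorem exists_noncentral (h : Exm p G) : ∃ x : G, x ∉ Subgroup.center G := by
  by_contra hcon
  push Not at hcon
  refine h.not_solvable ?_
  letI : CommGroup G :=
    { (inferInstance : Group G) with
      mul_comm := fun x y => Subgroup.mem_center_iff.1 (hcon y) x }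
  infer_instance

theorem ImC_of_ImP (h : Exm p G) {δ : Ordinal.{0}} (hd : ImP G δ) : ImC G δ := by
  obtain ⟨Q, hQg, q, hQn, hq, hPB⟩ := hd
  have hQ : Exm p Q := h.map q hq
  obtain ⟨x, hx⟩ := exists_noncentral hQ
  exact ⟨Q, hQg, q, hq, x, hx, HB_of_PB hPB x⟩

theorem ImP_uniform (h : Exm p G) : ∃ α : Ordinal.{0}, α < ω₁ ∧ ImP G α := by
  obtain ⟨α, hα, h1⟩ := uniform_exm h
  exact ⟨α, hα, G, inferInstance, MonoidHom.id G, h.nontriv, Function.surjective_id,
    fun S x hx => h1 (nc S) (nc_ne_top h S) x hx⟩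

theorem not_ImC_omega (h : Exm p G) (b : ℕ) : ¬ ImC G (ω * b) := by
  rintro ⟨Q, hQg, q, hq, x, hx, hHB⟩
  haveI : Nontrivial Q := by
    by_contra hn
    rw [not_nontrivial_iff_subsingleton] at hn
    exact hx (by rw [Subsingleton.elim x 1]; exact one_mem _)
  exact hx (central_of_HB_omega (h.map q hq) b hHB)

/-- a least ordinal with an upward closed property which is not additively decomposable -/
theorem opow_of_least {P : Ordinal.{0} → Prop} {l : Ordinal.{0}} (hl : IsLeast {δ | P δ} l)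
    (hb : ∀ b : ℕ, ¬ P (ω * b)) (hmono : ∀ α β, α ≤ β → P α → P β)
    (hdec : ∀ β δ, P (β + δ) → P β ∨ P δ) : ∃ γ : Ordinal.{0}, 2 ≤ γ ∧ l = ω ^ γ := by
  have hprin : IsPrincipal (· + ·) l := by
    intro β δ hβ hδ
    show β + δ < l
    by_contra hcon
    rw [not_lt] at hcon
    rcases hdec β δ (hmono _ _ hcon hl.1) with h1 | h1
    · exact absurd (hl.2 h1) (not_le.2 hβ)
    · exact absurd (hl.2 h1) (not_le.2 hδ)
  have hlb : ∀ b : ℕ, ω * b < l := by
    intro b
    by_contra hcon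
    rw [not_lt] at hcon
    exact hb b (hmono _ _ hcon hl.1)
  rcases isPrincipal_add_iff_zero_or_omega0_opow.1 hprin with h0 | ⟨γ, hγ⟩
  · exact absurd (hlb 0) (by rw [h0]; simp)
  · refine ⟨γ, ?_, hγ.symm⟩
    by_contra hcon
    rw [not_le] at hcon
    have h2 : γ ≤ 1 := by
      have h3 : (2 : Ordinal.{0}) = 1 + 1 := by norm_num
      rw [h3] at hcon
      exact Order.lt_add_one_iff.1 hcon
    have h4 : l ≤ ω * (1 : ℕ) := by
      rw [← hγ, Nat.cast_one, mul_one]
      calc ω ^ γ ≤ ω ^ (1 : Ordinal.{0}) := Ordinal.opow_le_opow_right omega0_pos h2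
        _ = ω := Ordinal.opow_one ω
    exact absurd (hlb 1) (not_lt.2 h4)

theorem ImP_mono {α β : Ordinal.{0}} (hαβ : α ≤ β) (h : ImP G α) : ImP G β := by
  obtain ⟨Q, hQg, q, hQn, hq, hPB⟩ := h
  exact ⟨Q, hQg, q, hQn, hq, fun S x hx => ZO_mono _ hαβ (hPB S x hx)⟩

theorem ImC_mono {α β : Ordinal.{0}} (hαβ : α ≤ β) (h : ImC G α) : ImC G β := by
  obtain ⟨Q, hQg, q, hq, x, hx, hHB⟩ := h
  exact ⟨Q, hQg, q, hq, x, hx, fun S => ZO_mono _ hαβ (hHB S)⟩

theorem ImP_dec (β δ : Ordinal.{0}) (h : ImP G (β + δ)) : ImP G β ∨ ImP G δ := by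
  obtain ⟨Q, hQg, q, hQn, hq, hPB⟩ := h
  by_cases hall : ∀ S : Finset Q, ZO (nc S) β = Set.univ
  · exact Or.inl ⟨Q, hQg, q, hQn, hq, fun S x _ => by rw [hall S]; trivial⟩
  · push Not at hall
    obtain ⟨S, hS⟩ := hall
    obtain ⟨A, hA, hAZ⟩ := ZO_normal (nc S) β
    have hAt : A ≠ ⊤ := by
      intro h0
      apply hS
      rw [← hAZ, h0, Subgroup.coe_top]
    refine Or.inr ⟨Q ⧸ A, inferInstance, (QuotientGroup.mk' A).comp q,
      QuotientGroup.nontrivial_iff.2 hAt,
      (QuotientGroup.mk'_surjective A).comp hq, ?_⟩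
    refine PB_quot (QuotientGroup.mk' A) (QuotientGroup.mk'_surjective A) S β δ ?_ hPB
    intro x hx
    rw [← hAZ] at hx
    exact (QuotientGroup.eq_one_iff x).2 hx

theorem ImC_dec (hG : Exm p G) (β δ : Ordinal.{0}) (h : ImC G (β + δ)) : ImC G β ∨ ImC G δ := by
  by_contra hcon
  push Not at hcon
  obtain ⟨hβ, hδ⟩ := hcon
  obtain ⟨Q, hQg, q, hq, x, hx, hHB⟩ := h
  haveI : Nontrivial Q := by
    by_contra hn
    rw [not_nontrivial_iff_subsingleton] at hn
    exact hx (by rw [Subsingleton.elim x 1]; exact one_mem _)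
  have hQ : Exm p Q := hG.map q hq
  apply hx
  refine central_of_comm hQ x fun g => ?_
  by_contra hg
  refine hβ ⟨Q, hQg, q, hq, x * g * x⁻¹ * g⁻¹, hg, fun S => ?_⟩
  obtain ⟨A, hA, hAZ⟩ := ZO_normal (nc S) β
  rw [← hAZ, SetLike.mem_coe]
  have h1 : (QuotientGroup.mk' A) x ∈ Subgroup.center (Q ⧸ A) := by
    by_contra h2
    refine hδ ⟨Q ⧸ A, inferInstance, (QuotientGroup.mk' A).comp q,
      (QuotientGroup.mk'_surjective A).comp hq, _, h2, ?_⟩
    refine HB_quot (QuotientGroup.mk' A) (QuotientGroup.mk'_surjective A) S β δ ?_ hHB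
    intro x hx
    rw [← hAZ] at hx
    exact (QuotientGroup.eq_one_iff x).2 hx
  rw [← QuotientGroup.eq_one_iff]
  have h3 := Subgroup.mem_center_iff.1 h1 (QuotientGroup.mk' A g)
  have h4 : QuotientGroup.mk' A (x * g * x⁻¹ * g⁻¹) = 1 := by
    rw [map_mul, map_mul, map_mul, map_inv, map_inv, mul_inv_eq_one, mul_inv_eq_iff_eq_mul]
    exact h3.symm
  exact h4

theorem exists_least {P : Ordinal.{0} → Prop} {α : Ordinal.{0}} (h : P α) :
    ∃ l, IsLeast {δ | P δ} l ∧ l ≤ α := by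
  have hne : {δ | P δ}.Nonempty := ⟨α, h⟩
  exact ⟨sInf {δ | P δ}, ⟨csInf_mem hne, fun δ hδ => csInf_le' hδ⟩, csInf_le' h⟩

/-- part (b) -/
theorem partB (h : Exm p G) : ∃ γ : Ordinal.{0}, 2 ≤ γ ∧ ω ^ γ < ω₁ ∧
    IsLeast {δ | ImP G δ} (ω ^ γ) := by
  obtain ⟨α, hα, hI⟩ := ImP_uniform h
  obtain ⟨l, hl, hlα⟩ := exists_least hI
  obtain ⟨γ, hγ, rfl⟩ := opow_of_least hl (fun b hb => not_ImC_omega h b (ImC_of_ImP h hb))
    (fun _ _ => ImP_mono) ImP_dec
  exact ⟨γ, hγ, hlα.trans_lt hα, hl⟩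

/-- part (c) -/
theorem partC (h : Exm p G) {γ : Ordinal.{0}} (hγ : IsLeast {δ | ImP G δ} (ω ^ γ)) :
    ∃ γ₀ : Ordinal.{0}, 2 ≤ γ₀ ∧ γ₀ ≤ γ ∧ IsLeast {δ | ImC G δ} (ω ^ γ₀) := by
  obtain ⟨l, hl, hlα⟩ := exists_least (ImC_of_ImP h hγ.1)
  obtain ⟨γ₀, hγ₀, rfl⟩ := opow_of_least hl (not_ImC_omega h) (fun _ _ => ImC_mono) (ImC_dec h)
  exact ⟨γ₀, hγ₀, (Ordinal.opow_le_opow_iff_right one_lt_omega0).1 hlα, hl⟩

/-- the last sentence of (c) -/
theorem attained (h : Exm p G) {δ : Ordinal.{0}} (hd : ImC G δ) :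
    ∃ (Q : Type) (_ : Group Q) (q : G →* Q), Function.Surjective q ∧ Subgroup.center Q = ⊥ ∧
      ∃ V : Subgroup Q, V.Normal ∧ V ≠ ⊥ ∧ (∀ x ∈ V, ∀ y ∈ V, x * y = y * x) ∧
        (∀ x ∈ V, x ^ p = 1) ∧ ∀ x ∈ V, HB x δ := by
  obtain ⟨Q, hQg, q, hq, x, hx, hHB⟩ := hd
  haveI : Nontrivial Q := by
    by_contra hn
    rw [not_nontrivial_iff_subsingleton] at hn
    exact hx (by rw [Subsingleton.elim x 1]; exact one_mem _)
  have hQ : Exm p Q := h.map q hq
  haveI := hQ.isPerfect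
  have hc : Subgroup.center (Q ⧸ Subgroup.center Q) = ⊥ :=
    Group.IsPerfect.center_quotient_center_eq_bot Q
  have hct : Subgroup.center Q ≠ ⊤ := fun h0 => hx (h0 ▸ Subgroup.mem_top x)
  haveI : Nontrivial (Q ⧸ Subgroup.center Q) := QuotientGroup.nontrivial_iff.2 hct
  set r := QuotientGroup.mk' (Subgroup.center Q) with hr
  have hrs : Function.Surjective r := QuotientGroup.mk'_surjective _
  have hR : Exm p (Q ⧸ Subgroup.center Q) := hQ.map r hrs
  have hx1 : r x ≠ 1 := fun h0 => hx ((QuotientGroup.eq_one_iff x).1 h0)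
  have hL := HB_nc (HB_map r hrs hHB)
  have hLt : Subgroup.normalClosure {r x} ≠ ⊤ := by
    have := nc_ne_top hR {r x}
    rwa [Finset.coe_singleton] at this
  have hLb : Subgroup.normalClosure {r x} ≠ ⊥ := by
    intro h0
    have h1 : r x ∈ Subgroup.normalClosure {r x} :=
      Subgroup.subset_normalClosure (Set.mem_singleton _)
    rw [h0, Subgroup.mem_bot] at h1
    exact hx1 h1
  obtain ⟨V, hVn, hVL, hVb, hVc, hVp⟩ := exists_elementary hR.pgroup _
    Subgroup.normalClosure_normal hLb (hR.proper _ hLt).1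
  exact ⟨Q ⧸ Subgroup.center Q, inferInstance, r.comp q, hrs.comp hq, hc, V, hVn, hVb, hVc, hVp,
    fun y hy => hL y (hVL hy)⟩

/-- the product of a proper subgroup and a proper normal subgroup is proper -/
theorem sup_ne_top (h : Exm p G) {H N : Subgroup G} (hH : H ≠ ⊤) (hN : N.Normal) (hNt : N ≠ ⊤) :
    H ⊔ N ≠ ⊤ := by
  intro h0
  apply hNt
  refine h.eq_top_of_solvable_quotient N ?_
  haveI := (h.proper H hH).1
  have h1 : Function.Surjective ((QuotientGroup.mk' N).comp H.subtype) := by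
    rw [← MonoidHom.range_eq_top, MonoidHom.range_comp, Subgroup.range_subtype]
    have h2 : (H ⊔ N).map (QuotientGroup.mk' N) = ⊤ := by
      rw [h0, Subgroup.map_top_of_surjective _ (QuotientGroup.mk'_surjective N)]
    rw [Subgroup.map_sup, QuotientGroup.map_mk'_self, sup_bot_eq] at h2
    exact h2
  exact Group.isSolvable_of_surjective h1

/-- the bound for all proper subgroups, relative to the whole group -/
theorem uniform_rel (h : Exm p G) :
    ∃ α : Ordinal.{0}, α < ω₁ ∧ ∀ H : Subgroup G, H ≠ ⊤ → ∀ x : G, x ∈ ZO H α := by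
  obtain ⟨α, hα, h1⟩ := uniform_exm h
  refine ⟨α, hα, fun H hH x => ?_⟩
  have h2 : Subgroup.normalClosure {x} ≠ ⊤ := by
    have := nc_ne_top h {x}
    rwa [Finset.coe_singleton] at this
  have h3 := sup_ne_top h hH Subgroup.normalClosure_normal h2
  exact ZO_anti le_sup_left α (h1 _ h3 x (Subgroup.mem_sup_right
    (Subgroup.subset_normalClosure (Set.mem_singleton x))))

/-- the first height -/
theorem first_height (h : Exm p G) : ∃ γ : Ordinal.{0}, 2 ≤ γ ∧ ω ^ γ < ω₁ ∧
    (∀ (Q : Type) [Group Q] (q : G →* Q), Function.Surjective q →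
      ∀ x : Q, x ∉ Subgroup.center Q → ∀ δ < ω ^ γ, ∃ S : Finset Q, x ∈ S ∧
        x ∉ ZO (Subgroup.normalClosure (S : Set Q)) δ) ∧
    ∃ (Q : Type) (_ : Group Q) (q : G →* Q), Function.Surjective q ∧ Subgroup.center Q = ⊥ ∧
      ∃ V : Subgroup Q, V.Normal ∧ V ≠ ⊥ ∧ (∀ x ∈ V, ∀ y ∈ V, x * y = y * x) ∧
        (∀ x ∈ V, x ^ p = 1) ∧
        ∀ x ∈ V, ∀ S : Finset Q, x ∈ ZO (Subgroup.normalClosure (S : Set Q)) (ω ^ γ) := by
  classical
  obtain ⟨γ, -, h2, hγ⟩ := partB h
  obtain ⟨γ₀, h1, h3, hγ₀⟩ := partC h hγ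
  refine ⟨γ₀, h1, ((Ordinal.opow_le_opow_iff_right one_lt_omega0).2 h3).trans_lt h2, ?_,
    attained h hγ₀.1⟩
  intro Q hQg q hq x hx δ hδ
  by_contra hcon
  push Not at hcon
  refine absurd (hγ₀.2 (show ImC G δ from ⟨Q, hQg, q, hq, x, hx, fun S => ?_⟩)) (not_le.2 hδ)
  exact ZO_anti (nc_mono (Finset.subset_insert x S)) δ
    (hcon (insert x S) (Finset.mem_insert_self x S))

end exm

end Pool.Agent.OL3218
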